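import Pool.Agent.Y398.KZ.Stm

/-!
Displacement of edges (task DISP of the project KZ).
-/

namespace Pool.Agent.Y151.KZ

open Pool.Agent.Y398.KZ

theorem po_sub {t : ℕ → ℤ → ℤ} {v v' : Rd} (h : v'.h = v.h) :
    ‖v.po t - v'.po t‖ = ‖v'.p t - v.p t‖ := by
  rw [norm_sub_rev]
  unfold Rd.po
  rw [h]
  by_cases hv : v.h = true
  · rw [if_pos hv, if_pos hv, ← swp_sub, norm_swp]
  · rw [if_neg hv, if_neg hv]

theorem norm_line (dx m g : ℝ) : ‖(⟨dx, m * dx + g⟩ : ℂ)‖ ≤ |dx| * rt m + |g| := by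
  have h1 : (⟨dx, m * dx + g⟩ : ℂ) = (⟨dx, m * dx⟩ : ℂ) + (⟨0, g⟩ : ℂ) := by
    apply Complex.ext
    · simp
    · simp
  have h2 : ‖(⟨dx, m * dx⟩ : ℂ)‖ = |dx| * rt m := by
    rw [Complex.norm_def, Complex.normSq_mk]
    have h3 : dx * dx + m * dx * (m * dx) = (|dx| * rt m) ^ 2 := by
      rw [mul_pow, rt_sq, sq_abs]
      ring
    rw [h3, Real.sqrt_sq (mul_nonneg (abs_nonneg _) (rt_pos m).le)]
  have h4 : ‖(⟨0, g⟩ : ℂ)‖ = |g| := by
    rw [Complex.norm_def, Complex.normSq_mk]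
    have h5 : (0 : ℝ) * 0 + g * g = |g| ^ 2 := by
      rw [sq_abs]
      ring
    rw [h5, Real.sqrt_sq (abs_nonneg g)]
  rw [h1, ← h2, ← h4]
  exact norm_add_le _ _

/-- steps along roads have length at most one -/
theorem disp_stp {t : ℕ → ℤ → ℤ} {v v' : Rd} (h : Stp v v') : ‖v.po t - v'.po t‖ ≤ 1 := by
  obtain ⟨h1, h2, h3, h4, h5⟩ := h
  rw [po_sub h1]
  have hN := N_pos v.j
  have hN1 : (1 : ℝ) ≤ (N v.j : ℝ) := by
    have h6 : (1 : ℤ) ≤ N v.j := by
      have : (0 : ℤ) < N v.j := by exact_mod_cast hN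
      omega
    exact_mod_cast h6
  have hr := rt_pos (sl v.j v.a)
  set d : ℝ := ((v'.i : ℝ) - v.i) / (N v.j : ℝ) with hd
  have hx : v'.x - v.x = d / rt (sl v.j v.a) := by
    unfold Rd.x
    rw [h2, h3, hd]
    ring
  have hz : v'.p t - v.p t = (⟨d / rt (sl v.j v.a), sl v.j v.a * (d / rt (sl v.j v.a)) + 0⟩ : ℂ) := by
    apply Complex.ext
    · rw [Complex.sub_re]
      exact hx
    · rw [Complex.sub_im]
      change sl v'.j v'.a * v'.x + ic t v'.j v'.a v'.b - (sl v.j v.a * v.x + ic t v.j v.a v.b) = _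
      rw [h2, h3, h4, ← hx]
      ring
  rw [hz]
  refine (norm_line _ _ _).trans ?_
  rw [abs_zero, add_zero, abs_div, abs_of_pos hr, div_mul_cancel₀ _ hr.ne']
  rw [hd, abs_div, abs_of_pos hN, div_le_one hN]
  rcases h5 with h5 | h5
  · rw [h5]
    push_cast
    rw [add_sub_cancel_left, abs_of_pos hN]
  · rw [h5]
    push_cast
    rw [abs_le]
    constructor <;> linarith

/-- switches have length at most one -/
theorem disp_swi {t : ℕ → ℤ → ℤ} {v v' : Rd} (hv : v.Ok) (h : Swi t v v') :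
    ‖v.po t - v'.po t‖ ≤ 1 := by
  obtain ⟨h1, h2, h3, h4, h5⟩ := h
  rw [po_sub h1]
  have hN := N_pos v'.j
  have hN1 : (1 : ℝ) ≤ (N v'.j : ℝ) := by
    have h6 : (1 : ℤ) ≤ N v'.j := by
      have : (0 : ℤ) < N v'.j := by exact_mod_cast hN
      omega
    exact_mod_cast h6
  have hB := B_le v.j hv.1
  have hr := rt_pos (sl v'.j v'.a)
  set G : ℝ := gap t v v' with hG
  have hG0 : 0 ≤ G := by
    rw [hG]
    unfold gap
    exact abs_nonneg _
  have hG1 : G ≤ 1 / 2 := by linarith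
  set r0 : ℝ := v.x * rt (sl v'.j v'.a) with hr0
  set r' : ℝ := (v'.i : ℝ) / (N v'.j : ℝ) with hr'
  have hk : |r' - r0| ≤ 1 - G := by
    rw [abs_le]
    rcases h5 with h5 | h5
    · have h6 := Int.floor_le ((N v'.j : ℝ) * (r0 + 1 - G))
      have h7 := Int.lt_floor_add_one ((N v'.j : ℝ) * (r0 + 1 - G))
      rw [← h5] at h6 h7
      have h8 : r' ≤ r0 + 1 - G := by
        rw [hr', div_le_iff₀ hN]
        linarith
      have h9 : r0 + 1 - G - 1 ≤ r' := by
        rw [hr', le_div_iff₀ hN]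
        nlinarith
      constructor <;> linarith
    · have h6 := Int.le_ceil ((N v'.j : ℝ) * (r0 - 1 + G))
      have h7 := Int.ceil_lt_add_one ((N v'.j : ℝ) * (r0 - 1 + G))
      rw [← h5] at h6 h7
      have h8 : r0 - 1 + G ≤ r' := by
        rw [hr', le_div_iff₀ hN]
        linarith
      have h9 : r' ≤ r0 - 1 + G + 1 := by
        rw [hr', div_le_iff₀ hN]
        nlinarith
      constructor <;> linarith
  have hx : v'.x - v.x = (r' - r0) / rt (sl v'.j v'.a) := by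
    rw [sub_div, hr0, mul_div_assoc, div_self hr.ne', mul_one]
    rfl
  set g : ℝ := (sl v'.j v'.a * v.x + ic t v'.j v'.a v'.b) - (sl v.j v.a * v.x + ic t v.j v.a v.b)
    with hg
  have hz : v'.p t - v.p t = (⟨(r' - r0) / rt (sl v'.j v'.a),
      sl v'.j v'.a * ((r' - r0) / rt (sl v'.j v'.a)) + g⟩ : ℂ) := by
    apply Complex.ext
    · rw [Complex.sub_re]
      exact hx
    · rw [Complex.sub_im]
      change sl v'.j v'.a * v'.x + ic t v'.j v'.a v'.b - (sl v.j v.a * v.x + ic t v.j v.a v.b) = _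
      rw [← hx, hg]
      ring
  rw [hz]
  refine (norm_line _ _ _).trans ?_
  rw [abs_div, abs_of_pos hr, div_mul_cancel₀ _ hr.ne']
  have hgG : |g| = G := rfl
  rw [hgG]
  linarith

theorem t_DISP : S_DISP := by
  intro t v v' h
  obtain ⟨h1, h2, h3⟩ := h
  rcases h3 with h3 | h3 | h3 | h3
  · exact disp_stp h3
  · rw [norm_sub_rev]
    exact disp_stp h3
  · exact disp_swi h1 h3
  · rw [norm_sub_rev]
    exact disp_swi h2 h3

theorem t_LEV : S_LEV := by
  intro C t hC v hv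
  have hp : ‖v.po t‖ = ‖v.p t‖ := by
    unfold Rd.po
    by_cases h : v.h = true
    · rw [if_pos h, norm_swp]
    · rw [if_neg h]
  rw [hp]
  obtain ⟨h1, h2⟩ := (hC v.j hv.1).1 v.a
  have hw := w_pos v.j
  have h1' : (w v.j : ℝ) ≤ 4 * (t v.j v.a : ℝ) := by exact_mod_cast h1
  have h2' : 4 * (t v.j v.a : ℝ) ≤ 3 * (w v.j : ℝ) := by exact_mod_cast h2
  set c : ℝ := ic t v.j v.a v.b with hc
  have hc1 : (w v.j : ℝ) / 4 ≤ |c| := by
    rcases le_or_gt 0 v.b with hb | hb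
    · have hb' : (0 : ℝ) ≤ (v.b : ℝ) := by exact_mod_cast hb
      have : (w v.j : ℝ) / 4 ≤ c := by
        rw [hc]
        unfold ic
        nlinarith
      exact this.trans (le_abs_self c)
    · have hb' : (v.b : ℝ) ≤ -1 := by
        have : v.b ≤ -1 := by omega
        exact_mod_cast this
      have : c ≤ -((w v.j : ℝ) / 4) := by
        rw [hc]
        unfold ic
        nlinarith
      exact (by linarith : (w v.j : ℝ) / 4 ≤ -c).trans (neg_le_abs c)
  have hm := sl_le v.j v.a hv.2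
  have hrt := rt_le _ hm
  set z : ℂ := v.p t with hz
  have hzc : z.im - sl v.j v.a * z.re = c := by
    rw [hz, hc]
    change sl v.j v.a * v.x + ic t v.j v.a v.b - sl v.j v.a * v.x = _
    ring
  have hcs : |c| ≤ rt (sl v.j v.a) * ‖z‖ := by
    rw [← hzc]
    apply abs_le_of_sq_le_sq _ (mul_nonneg (rt_pos _).le (norm_nonneg z))
    rw [mul_pow, rt_sq, Complex.sq_norm, Complex.normSq_apply]
    nlinarith [sq_nonneg (z.re + sl v.j v.a * z.im)]
  have h8 : (8 : ℝ) ^ v.j = (w v.j : ℝ) := (w_cast v.j).symm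
  rw [h8]
  nlinarith [norm_nonneg z, mul_le_mul_of_nonneg_right hrt (norm_nonneg z)]

end Pool.Agent.Y151.KZ
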