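import Pool.Agent.Y398.KZ.Stm

/-!
Labels (task LAB of the project KZ).
-/

namespace Pool.Agent.Y151.KZ

open Pool.Agent.Y398.KZ

theorem t_LAB : S_LAB := by
  intro R κ hR cell lev F hF
  obtain ⟨e, he⟩ := exists_injective_nat R
  let S : R → Set R := fun v =>
    {u | cell u = cell v ∧ (lev u < lev v ∨ (lev u = lev v ∧ e u < e v))}
  have hsub : ∀ v, S v ⊆ {u | cell u = cell v ∧ lev u ≤ lev v} := by
    rintro v u ⟨h1, h2⟩
    exact ⟨h1, by omega⟩
  have hfin : ∀ v, (S v).Finite := fun v => (hF (cell v) (lev v)).1.subset (hsub v)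
  have hnot : ∀ v, v ∉ S v := by
    rintro v ⟨_, h2⟩
    omega
  have hlt : ∀ v v', cell v = cell v' → (lev v < lev v' ∨ (lev v = lev v' ∧ e v < e v')) →
      (S v).ncard < (S v').ncard := by
    intro v v' hc hk
    apply Set.ncard_lt_ncard _ (hfin v')
    refine ⟨?_, fun h => hnot v (h ⟨hc, hk⟩)⟩
    rintro u ⟨h1, h2⟩
    exact ⟨h1.trans hc, by omega⟩
  refine ⟨fun v => (S v).ncard, fun v => ?_, fun v v' hc hl => ?_⟩
  · refine lt_of_lt_of_le ?_ (hF (cell v) (lev v)).2
    apply Set.ncard_lt_ncard _ (hF (cell v) (lev v)).1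
    exact ⟨hsub v, fun h => hnot v (h ⟨rfl, le_rfl⟩)⟩
  · by_contra hne
    have hne' : e v ≠ e v' := fun h => hne (he h)
    change (S v).ncard = (S v').ncard at hl
    rcases lt_trichotomy (lev v) (lev v') with h | h | h
    · exact absurd hl (hlt v v' hc (Or.inl h)).ne
    · rcases lt_or_gt_of_ne hne' with h' | h'
      · exact absurd hl (hlt v v' hc (Or.inr ⟨h, h'⟩)).ne
      · exact absurd hl.symm (hlt v' v hc.symm (Or.inr ⟨h.symm, h'⟩)).ne
    · exact absurd hl.symm (hlt v' v hc.symm (Or.inl h)).ne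

end Pool.Agent.Y151.KZ
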