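import Pool.Agent.Y398.KZ.Stm

/-!
All distant pairs, by symmetry (task MAIN of the project KZ).
-/

namespace Pool.Agent.Y151.KZ

open Pool.Agent.Y398.KZ

theorem ok_flip {v : Rd} (h : v.Ok) : v.flip.Ok := h

theorem stp_flip {v v' : Rd} (h : Stp v v') : Stp v.flip v'.flip := by
  obtain ⟨h1, h2⟩ := h
  refine ⟨?_, h2⟩
  change (!v'.h) = (!v.h)
  rw [h1]

theorem swi_flip {t : ℕ → ℤ → ℤ} {v v' : Rd} (h : Swi t v v') : Swi t v.flip v'.flip := by
  obtain ⟨h1, h2⟩ := h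
  refine ⟨?_, h2⟩
  change (!v'.h) = (!v.h)
  rw [h1]

theorem adj_flip {t : ℕ → ℤ → ℤ} {v v' : Rd} (h : Adj t v v') : Adj t v.flip v'.flip := by
  obtain ⟨h1, h2, h3⟩ := h
  refine ⟨ok_flip h1, ok_flip h2, ?_⟩
  rcases h3 with h3 | h3 | h3 | h3
  · exact Or.inl (stp_flip h3)
  · exact Or.inr (Or.inl (stp_flip h3))
  · exact Or.inr (Or.inr (Or.inl (swi_flip h3)))
  · exact Or.inr (Or.inr (Or.inr (swi_flip h3)))

theorem chn_flip {t : ℕ → ℤ → ℤ} {n : ℕ} {u v : Rd} (h : Chn t n u v) :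
    Chn t n u.flip v.flip := by
  induction h with
  | nil v => exact Chn.nil _
  | cons h1 h2 ih => exact Chn.cons ih (adj_flip h2)

theorem po_false {t : ℕ → ℤ → ℤ} {v : Rd} (h : v.h = false) : v.po t = v.p t := by
  unfold Rd.po
  rw [h]
  simp

theorem po_flip {t : ℕ → ℤ → ℤ} {v : Rd} (h : v.h = false) : v.flip.po t = swp (v.p t) := by
  have h1 : v.flip.h = true := by
    change (!v.h) = true
    rw [h]
    rfl
  unfold Rd.po
  rw [if_pos h1]
  rfl

theorem main_one (h : S_MAINH) (t : ℕ → ℤ → ℤ) (x y : ℂ)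
    (h1 : |x.im - y.im| ≤ |x.re - y.re|) (h2 : 2048 ≤ |x.re - y.re|) :
    ∃ (p p' : Rd) (n : ℕ), p.Ok ∧ p'.Ok ∧ p.j = 1 ∧ p'.j = 1 ∧ p.h = false ∧ p'.h = false ∧
      ‖p.p t - x‖ ≤ 25 ∧ ‖p'.p t - y‖ ≤ 25 ∧ Chn t n p p' ∧ (n : ℝ) ≤ ‖x - y‖ + 1740 := by
  rcases le_total x.re y.re with hle | hle
  · have h3 : |x.re - y.re| = y.re - x.re := by
      rw [abs_sub_comm]
      exact abs_of_nonneg (by linarith)
    rw [h3] at h1 h2
    rw [abs_sub_comm] at h1
    exact h t x y h1 h2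
  · have h3 : |x.re - y.re| = x.re - y.re := abs_of_nonneg (by linarith)
    rw [h3] at h1 h2
    obtain ⟨p, p', n, a1, a2, a3, a4, a5, a6, a7, a8, a9, a10⟩ := h t y x h1 h2
    refine ⟨p', p, n, a2, a1, a4, a3, a6, a5, a8, a7, a9.symm, ?_⟩
    rwa [norm_sub_rev]

theorem t_MAIN (h : S_MAINH) : S_MAIN := by
  intro t x y hxy
  rcases le_total |x.im - y.im| |x.re - y.re| with hle | hle
  · have h2 : 2048 ≤ |x.re - y.re| := by
      rcases hxy with h' | h'
      · exact h'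
      · exact h'.trans hle
    obtain ⟨p, p', n, a1, a2, a3, a4, a5, a6, a7, a8, a9, a10⟩ := main_one h t x y hle h2
    refine ⟨p, p', n, a1, a2, a3, a4, ?_, ?_, a9, a10⟩
    · rwa [po_false a5]
    · rwa [po_false a6]
  · have h2 : 2048 ≤ |x.im - y.im| := by
      rcases hxy with h' | h'
      · exact h'.trans hle
      · exact h'
    obtain ⟨p, p', n, a1, a2, a3, a4, a5, a6, a7, a8, a9, a10⟩ :=
      main_one h t (swp x) (swp y) hle h2
    refine ⟨p.flip, p'.flip, n, ok_flip a1, ok_flip a2, a3, a4, ?_, ?_, chn_flip a9, ?_⟩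
    · rw [po_flip a5, ← norm_swp, swp_sub, swp_swp]
      exact a7
    · rw [po_flip a6, ← norm_swp, swp_sub, swp_swp]
      exact a8
    · rw [← swp_sub, norm_swp] at a10
      exact a10

end Pool.Agent.Y151.KZ
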