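import Pool.Agent.Y398.KZ.Stm

/-!
Steps along a road (task RUN of the project KZ).
-/

namespace Pool.Agent.Y151.KZ

open Pool.Agent.Y398.KZ

theorem t_COS : S_COS := by
  intro m μ hμ hm
  have hP : 0 < rt m * rt μ := mul_pos (rt_pos m) (rt_pos μ)
  have hP1 : 1 ≤ rt m * rt μ := one_le_mul_of_one_le_of_one_le (one_le_rt m) (one_le_rt μ)
  have hP2 : (rt m * rt μ) ^ 2 = (1 + m * μ) ^ 2 + (m - μ) ^ 2 := by
    rw [mul_pow, rt_sq, rt_sq]
    ring
  set P : ℝ := rt m * rt μ with hPdef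
  obtain ⟨h1, h2⟩ := abs_le.1 hμ
  obtain ⟨h3, h4⟩ := abs_le.1 hm
  have hA : 0 < 1 + m * μ := by nlinarith [sq_nonneg μ]
  have hAP : 1 + m * μ ≤ P := by
    by_contra h
    push Not at h
    nlinarith [sq_nonneg (m - μ)]
  constructor
  · rw [le_div_iff₀ hP]
    have h5 : (1 - (m - μ) ^ 2) * P * P ≤ (1 + m * μ) * P := by
      have h6 : (m - μ) ^ 2 ≤ (m - μ) ^ 2 * P ^ 2 := by
        have : 1 ≤ P ^ 2 := one_le_pow₀ hP1
        nlinarith [sq_nonneg (m - μ)]
      nlinarith
    exact le_of_mul_le_mul_right h5 hP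
  · rw [div_le_one hP]
    exact hAP

theorem mv_zero (v : Rd) : v.mv 0 = v := by
  cases v
  simp [Rd.mv]

theorem mv_ok {v : Rd} (h : v.Ok) (k : ℤ) : (v.mv k).Ok := h

theorem adj_add {t : ℕ → ℤ → ℤ} {v : Rd} (h : v.Ok) (k d : ℤ)
    (hd : d = N v.j ∨ d = N v.j - 1) : Adj t (v.mv k) (v.mv (k + d)) := by
  refine ⟨mv_ok h k, mv_ok h _, Or.inl ⟨rfl, rfl, rfl, rfl, ?_⟩⟩
  change v.i + (k + d) = v.i + k + N v.j ∨ v.i + (k + d) = v.i + k + N v.j - 1
  omega

theorem t_RUN : S_RUN := by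
  intro t v n sg hv hsg
  have hN := N_pos v.j
  have hr := rt_pos (sl v.j v.a)
  have hx : (v.mv (sg * n * N v.j)).x = v.x + (sg : ℝ) * n / rt (sl v.j v.a) := by
    unfold Rd.x Rd.mv
    push_cast
    field_simp
  refine ⟨?_, hx, fun μ => ?_⟩
  · induction n with
    | zero =>
      simp only [Nat.cast_zero, mul_zero, zero_mul]
      rw [mv_zero]
      exact Chn.nil v
    | succ n ih =>
      have hx' : (v.mv (sg * n * N v.j)).x = v.x + (sg : ℝ) * n / rt (sl v.j v.a) := by
        unfold Rd.x Rd.mv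
        push_cast
        field_simp
      refine Chn.cons (ih hx') ?_
      rcases hsg with rfl | rfl
      · have h1 := adj_add (t := t) hv (1 * (n : ℤ) * N v.j) (N v.j) (Or.inl rfl)
        have h2 : (1 : ℤ) * ((n + 1 : ℕ) : ℤ) * N v.j = 1 * (n : ℤ) * N v.j + N v.j := by
          push_cast
          ring
        rw [h2]
        exact h1
      · have h1 := adj_add (t := t) hv (-1 * ((n + 1 : ℕ) : ℤ) * N v.j) (N v.j) (Or.inl rfl)
        have h2 : (-1 : ℤ) * ((n + 1 : ℕ) : ℤ) * N v.j + N v.j = -1 * (n : ℤ) * N v.j := by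
          push_cast
          ring
        rw [h2] at h1
        exact h1.symm
  · unfold dt
    have h1 : ((v.mv (sg * n * N v.j)).p t - v.p t).re = (sg : ℝ) * n / rt (sl v.j v.a) := by
      rw [Complex.sub_re]
      change (v.mv (sg * n * N v.j)).x - v.x = _
      rw [hx]
      ring
    have h2 : ((v.mv (sg * n * N v.j)).p t - v.p t).im =
        sl v.j v.a * ((sg : ℝ) * n / rt (sl v.j v.a)) := by
      rw [Complex.sub_im]
      change sl v.j v.a * (v.mv (sg * n * N v.j)).x + ic t v.j v.a v.b -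
        (sl v.j v.a * v.x + ic t v.j v.a v.b) = _
      rw [hx]
      ring
    rw [h1, h2]
    have hr' := rt_pos μ
    field_simp

/-- `k` long steps and `l` short steps -/
theorem chn_steps {t : ℕ → ℤ → ℤ} {v : Rd} (h : v.Ok) (k l : ℕ) :
    Chn t (k + l) v (v.mv (k * N v.j + l * (N v.j - 1))) := by
  induction l with
  | zero =>
    induction k with
    | zero =>
      simp only [Nat.cast_zero, zero_mul, add_zero]
      rw [mv_zero]
      exact Chn.nil v
    | succ k ih =>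
      have h1 := Chn.cons ih (adj_add (t := t) h _ (N v.j) (Or.inl rfl))
      have h2 : ((k + 1 : ℕ) : ℤ) * N v.j + ((0 : ℕ) : ℤ) * (N v.j - 1) =
          (k : ℤ) * N v.j + ((0 : ℕ) : ℤ) * (N v.j - 1) + N v.j := by
        push_cast
        ring
      rw [h2]
      exact h1
  | succ l ih =>
    have h1 := Chn.cons ih (adj_add (t := t) h _ (N v.j - 1) (Or.inr rfl))
    have h2 : (k : ℤ) * N v.j + ((l + 1 : ℕ) : ℤ) * (N v.j - 1) =
        (k : ℤ) * N v.j + (l : ℤ) * (N v.j - 1) + (N v.j - 1) := by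
      push_cast
      ring
    rw [h2]
    exact h1

theorem t_TOPRUN : S_TOPRUN := by
  intro t v L hv hL
  have hN := N_pos v.j
  have hN1 : 1 ≤ N v.j := by
    have : (0 : ℤ) < N v.j := by exact_mod_cast hN
    omega
  have hdiv := Int.emod_add_mul_ediv (L + N v.j - 1) (N v.j)
  have hm0 := Int.emod_nonneg (L + N v.j - 1) (show N v.j ≠ 0 by omega)
  have hm1 := Int.emod_lt_of_pos (L + N v.j - 1) (show 0 < N v.j by omega)
  set n : ℤ := (L + N v.j - 1) / N v.j with hn
  set M : ℤ := N v.j with hM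
  have h1 : L ≤ M * n := by omega
  have h2 : M * n ≤ L + M - 1 := by omega
  have hnM : M ≤ n := by
    have h3 : M * M ≤ M * n := by
      have : M ^ 2 = M * M := by ring
      omega
    exact le_of_mul_le_mul_left h3 (by omega)
  obtain ⟨k, hk⟩ := Int.eq_ofNat_of_zero_le (show 0 ≤ n - (M * n - L) by omega)
  obtain ⟨l, hl⟩ := Int.eq_ofNat_of_zero_le (show 0 ≤ M * n - L by omega)
  have hkl : (k : ℤ) * M + (l : ℤ) * (M - 1) = L := by
    rw [← hk, ← hl]
    ring
  refine ⟨k + l, ?_, ?_⟩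
  · have h5 := chn_steps (t := t) hv k l
    rw [← hM, hkl] at h5
    exact h5
  · have h6 : ((k + l : ℕ) : ℤ) = n := by
      push_cast
      omega
    have h7 : ((k + l : ℕ) : ℝ) = (n : ℝ) := by exact_mod_cast h6
    rw [h7]
    have h8 : (M : ℝ) * (n : ℝ) ≤ (L : ℝ) + M - 1 := by exact_mod_cast h2
    rw [← sub_le_iff_le_add, le_div_iff₀ hN]
    nlinarith

end Pool.Agent.Y151.KZ
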