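import Pool.Agent.Y398.KZ.Stm

/-!
Choice of a road (task SEL of the project KZ).
-/

namespace Pool.Agent.Y151.KZ

open Pool.Agent.Y398.KZ

theorem q_ge (j : ℕ) : (32 : ℝ) ≤ (q j : ℝ) := by
  rw [q_cast]
  have h1 : (1 : ℝ) ≤ 8 ^ j := one_le_pow₀ (by norm_num)
  have h2 : (1 : ℝ) ≤ ((j : ℝ) + 1) ^ 2 := one_le_pow₀ (by linarith [Nat.cast_nonneg (α := ℝ) j])
  nlinarith [mul_le_mul h1 h2 (by norm_num) (by linarith)]

theorem t_SEL : S_SEL := by
  intro t x μ β₀ sg hμ hsg hβ hβ' j hj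
  have hq := q_pos j
  have hq32 := q_ge j
  have hw := w_pos j
  obtain ⟨hμ1, hμ2⟩ := abs_le.1 hμ
  -- the slope
  obtain ⟨a, ha, ha1, ha2⟩ : ∃ a : ℤ, |a| ≤ 2 * q j ∧ β₀ ≤ (sg : ℝ) * (sl j a - μ) ∧
      (sg : ℝ) * (sl j a - μ) ≤ β₀ + 1 / (q j : ℝ) := by
    have key : ∀ a : ℤ, (a : ℝ) ≤ 2 * (q j : ℝ) → -(2 * (q j : ℝ)) ≤ (a : ℝ) → |a| ≤ 2 * q j := by
      intro a h1 h2
      rw [abs_le]
      constructor
      · have : ((-(2 * q j) : ℤ) : ℝ) ≤ (a : ℝ) := by push_cast; linarith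
        exact_mod_cast this
      · have : (a : ℝ) ≤ ((2 * q j : ℤ) : ℝ) := by push_cast; linarith
        exact_mod_cast this
    rcases hsg with rfl | rfl
    · refine ⟨⌈(q j : ℝ) * (μ + β₀)⌉, ?_, ?_, ?_⟩
      · have h1 := Int.le_ceil ((q j : ℝ) * (μ + β₀))
        have h2 := Int.ceil_lt_add_one ((q j : ℝ) * (μ + β₀))
        apply key
        · nlinarith
        · nlinarith
      · have h1 := Int.le_ceil ((q j : ℝ) * (μ + β₀))
        unfold sl
        push_cast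
        rw [one_mul, le_sub_iff_add_le, le_div_iff₀ hq]
        linarith
      · have h2 := Int.ceil_lt_add_one ((q j : ℝ) * (μ + β₀))
        unfold sl
        push_cast
        rw [one_mul, sub_le_iff_le_add, div_le_iff₀ hq]
        have h3 : (β₀ + 1 / (q j : ℝ) + μ) * (q j : ℝ) = (q j : ℝ) * (μ + β₀) + 1 := by
          field_simp
          ring
        linarith
    · refine ⟨⌊(q j : ℝ) * (μ - β₀)⌋, ?_, ?_, ?_⟩
      · have h1 := Int.floor_le ((q j : ℝ) * (μ - β₀))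
        have h2 := Int.lt_floor_add_one ((q j : ℝ) * (μ - β₀))
        apply key
        · nlinarith
        · nlinarith
      · have h1 := Int.floor_le ((q j : ℝ) * (μ - β₀))
        unfold sl
        have h3 : (⌊(q j : ℝ) * (μ - β₀)⌋ : ℝ) / (q j : ℝ) ≤ μ - β₀ := by
          rw [div_le_iff₀ hq]
          linarith
        push_cast
        linarith
      · have h2 := Int.lt_floor_add_one ((q j : ℝ) * (μ - β₀))
        unfold sl
        have h3 : μ - β₀ - 1 / (q j : ℝ) ≤ (⌊(q j : ℝ) * (μ - β₀)⌋ : ℝ) / (q j : ℝ) := by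
          rw [le_div_iff₀ hq]
          have h4 : (μ - β₀ - 1 / (q j : ℝ)) * (q j : ℝ) = (q j : ℝ) * (μ - β₀) - 1 := by
            field_simp
          linarith
        push_cast
        linarith
  -- the line
  set d0 : ℝ := sl j a * x.re + (t j a : ℝ) - x.im with hd0
  refine ⟨a, ⌈((w j : ℝ) - d0) / (w j : ℝ)⌉, ha, ha1, ha2, ?_, ?_⟩
  · have h1 := Int.le_ceil (((w j : ℝ) - d0) / (w j : ℝ))
    rw [div_le_iff₀ hw] at h1
    unfold ic
    linarith
  · have h2 := Int.ceil_lt_add_one (((w j : ℝ) - d0) / (w j : ℝ))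
    have h3 : (⌈((w j : ℝ) - d0) / (w j : ℝ)⌉ : ℝ) * (w j : ℝ) < (w j : ℝ) - d0 + (w j : ℝ) := by
      have h4 := mul_lt_mul_of_pos_right h2 hw
      have h5 : (((w j : ℝ) - d0) / (w j : ℝ) + 1) * (w j : ℝ) = (w j : ℝ) - d0 + (w j : ℝ) := by
        field_simp
      linarith
    unfold ic
    linarith

end Pool.Agent.Y151.KZ
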