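import Pool.Agent.Y398.KZ.Stm

/-!
A switch to a near road of the next level (task SW of the project KZ).
-/

namespace Pool.Agent.Y151.KZ

open Pool.Agent.Y398.KZ

theorem t_SW (hCOS : S_COS) : S_SW := by
  intro t v a' b' μ sg hv ha' hμ hmμ hsg hBm hBg
  set m' : ℝ := sl (v.j + 1) a' with hm'
  set g : ℝ := (m' * v.x + ic t (v.j + 1) a' b') - (sl v.j v.a * v.x + ic t v.j v.a v.b) with hg
  set G : ℝ := |g| with hG
  have hN := N_pos (v.j + 1)
  have hNc : (N (v.j + 1) : ℝ) = ((v.j : ℝ) + 2) ^ 2 := by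
    rw [N_cast]
    push_cast
    ring
  have hj1 : (1 : ℝ) ≤ (v.j : ℝ) := by exact_mod_cast hv.1
  have hN9 : (9 : ℝ) ≤ (N (v.j + 1) : ℝ) := by
    rw [hNc]
    nlinarith
  have hB := B_le v.j hv.1
  have hr := rt_pos m'
  have hr1 := one_le_rt m'
  have hG0 : 0 ≤ G := abs_nonneg _
  have hG1 : G ≤ 1 / 2 := by linarith
  set r0 : ℝ := v.x * rt m' with hr0
  obtain ⟨i', hadj, hi1, hi2⟩ : ∃ i' : ℤ, Adj t v ⟨v.h, v.j + 1, a', b', i'⟩ ∧
      1 - G - 1 / (N (v.j + 1) : ℝ) ≤ (sg : ℝ) * ((i' : ℝ) / (N (v.j + 1) : ℝ) - r0) ∧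
      (sg : ℝ) * ((i' : ℝ) / (N (v.j + 1) : ℝ) - r0) ≤ 1 - G := by
    have hdiv : 1 / (N (v.j + 1) : ℝ) * (N (v.j + 1) : ℝ) = 1 := by
      field_simp
    rcases hsg with rfl | rfl
    · refine ⟨⌊(N (v.j + 1) : ℝ) * (r0 + 1 - G)⌋, ?_, ?_, ?_⟩
      · refine ⟨hv, ⟨Nat.le_add_left 1 v.j, ha'⟩, Or.inr (Or.inr (Or.inl
          ⟨rfl, rfl, hBm, hBg, Or.inl rfl⟩))⟩
      · have h7 := Int.lt_floor_add_one ((N (v.j + 1) : ℝ) * (r0 + 1 - G))
        push_cast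
        rw [one_mul, le_sub_iff_add_le, le_div_iff₀ hN]
        nlinarith
      · have h6 := Int.floor_le ((N (v.j + 1) : ℝ) * (r0 + 1 - G))
        push_cast
        rw [one_mul, sub_le_iff_le_add, div_le_iff₀ hN]
        nlinarith
    · refine ⟨⌈(N (v.j + 1) : ℝ) * (r0 - 1 + G)⌉, ?_, ?_, ?_⟩
      · refine ⟨hv, ⟨Nat.le_add_left 1 v.j, ha'⟩, Or.inr (Or.inr (Or.inl
          ⟨rfl, rfl, hBm, hBg, Or.inr rfl⟩))⟩
      · have h7 := Int.ceil_lt_add_one ((N (v.j + 1) : ℝ) * (r0 - 1 + G))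
        have h8 : (⌈(N (v.j + 1) : ℝ) * (r0 - 1 + G)⌉ : ℝ) / (N (v.j + 1) : ℝ) ≤
            r0 - 1 + G + 1 / (N (v.j + 1) : ℝ) := by
          rw [div_le_iff₀ hN]
          nlinarith
        push_cast
        linarith
      · have h6 := Int.le_ceil ((N (v.j + 1) : ℝ) * (r0 - 1 + G))
        have h8 : r0 - 1 + G ≤ (⌈(N (v.j + 1) : ℝ) * (r0 - 1 + G)⌉ : ℝ) / (N (v.j + 1) : ℝ) := by
          rw [le_div_iff₀ hN]
          linarith
        push_cast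
        linarith
  set r' : ℝ := (i' : ℝ) / (N (v.j + 1) : ℝ) with hr'
  have hinv : 1 / (N (v.j + 1) : ℝ) ≤ 1 / 9 := by
    apply one_div_le_one_div_of_le (by norm_num) hN9
  have hinv0 : 0 < 1 / (N (v.j + 1) : ℝ) := by positivity
  have hx : (⟨v.h, v.j + 1, a', b', i'⟩ : Rd).x - v.x = (r' - r0) / rt m' := by
    rw [sub_div, hr0, mul_div_assoc, div_self hr.ne', mul_one]
    rfl
  have hx' : (sg : ℝ) * ((⟨v.h, v.j + 1, a', b', i'⟩ : Rd).x - v.x) =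
      ((sg : ℝ) * (r' - r0)) / rt m' := by
    rw [hx]
    ring
  refine ⟨i', hadj, ?_, ?_, ?_⟩
  · rw [hx']
    apply div_nonneg _ hr.le
    linarith
  · rw [hx', div_le_one hr]
    linarith
  · obtain ⟨hc1, hc2⟩ := hCOS m' μ hμ hmμ
    set c : ℝ := (1 + m' * μ) / (rt m' * rt μ) with hc
    have hrμ := rt_pos μ
    have hdt : dt ((⟨v.h, v.j + 1, a', b', i'⟩ : Rd).p t - v.p t) μ =
        (r' - r0) * c + μ * g / rt μ := by
      unfold dt
      have h1 : ((⟨v.h, v.j + 1, a', b', i'⟩ : Rd).p t - v.p t).re = (r' - r0) / rt m' := by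
        rw [Complex.sub_re]
        exact hx
      have h2 : ((⟨v.h, v.j + 1, a', b', i'⟩ : Rd).p t - v.p t).im =
          m' * ((r' - r0) / rt m') + g := by
        rw [Complex.sub_im, ← hx]
        change m' * (⟨v.h, v.j + 1, a', b', i'⟩ : Rd).x + ic t (v.j + 1) a' b' -
          (sl v.j v.a * v.x + ic t v.j v.a v.b) = _
        rw [hg]
        ring
      rw [h1, h2, hc]
      field_simp
      ring
    rw [hdt]
    have hsq : (m' - μ) ^ 2 ≤ 1 / 4 := by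
      have := abs_le.1 hmμ
      nlinarith
    have hgb : -G ≤ (sg : ℝ) * (μ * g / rt μ) := by
      have h1 : |(sg : ℝ) * (μ * g / rt μ)| ≤ G := by
        rw [abs_mul, abs_div, abs_mul, abs_of_pos hrμ, ← hG]
        have h2 : |(sg : ℝ)| = 1 := by
          rcases hsg with rfl | rfl <;> simp
        rw [h2, one_mul, div_le_iff₀ hrμ]
        have h3 := one_le_rt μ
        nlinarith [abs_nonneg μ, mul_le_mul_of_nonneg_right hμ hG0,
          mul_le_mul_of_nonneg_left h3 hG0]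
      exact (abs_le.1 h1).1
    have hA1 : 1 - G - 1 / (N (v.j + 1) : ℝ) ≤ 1 := by linarith
    have hA0 : 0 ≤ 1 - G - 1 / (N (v.j + 1) : ℝ) := by linarith
    have hc0 : 0 ≤ c := by linarith
    have h4 : (1 - G - 1 / (N (v.j + 1) : ℝ)) - (m' - μ) ^ 2 ≤ (sg : ℝ) * (r' - r0) * c := by
      have h5 : (1 - G - 1 / (N (v.j + 1) : ℝ)) * c ≤ (sg : ℝ) * (r' - r0) * c :=
        mul_le_mul_of_nonneg_right hi1 hc0
      have h6 : (1 - G - 1 / (N (v.j + 1) : ℝ)) * (1 - (m' - μ) ^ 2) ≤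
          (1 - G - 1 / (N (v.j + 1) : ℝ)) * c := mul_le_mul_of_nonneg_left hc1 hA0
      nlinarith [sq_nonneg (m' - μ)]
    have h7 : (1 : ℝ) / ((v.j : ℝ) + 2) ^ 2 = 1 / (N (v.j + 1) : ℝ) := by rw [hNc]
    rw [h7]
    have h8 : (sg : ℝ) * ((r' - r0) * c + μ * g / rt μ) =
        (sg : ℝ) * (r' - r0) * c + (sg : ℝ) * (μ * g / rt μ) := by ring
    rw [h8]
    linarith

end Pool.Agent.Y151.KZ
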